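import Pool.Agent.Work.MP_3ca1ad_nt.PB.Fin

set_option autoImplicit false

/-!
# MP_3ca1ad_nt: a packing bound for the prime factors of a Fermat number of a common order

`F = 2 ^ (2 ^ m) + 1` composite, `n ≥ 2`, `J = 2 ^ m / n` (rounded down), `p_1, ..., p_N` primes with
`2 ^ n` dividing `p_i - 1` and with product dividing `F` (for example all prime factors of order `n`,
counted with multiplicity). Then `N ≤ J` and
`n N + ∑_(i < N) max (0, (n - log_2 C(J, i)) / (J - i)) ≤ 2 ^ m`.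

Proof: write `p_i = k_i x + 1`, `x = 2 ^ n`, `k_1 ≤ k_2 ≤ ...`. For each `s ≤ N` the cofactor of
`p_1 ... p_s` in `F` is congruent to the alternating sum of the `h_j(k_1, ..., k_s) x ^ j` modulo
`x ^ (J - s + 2)`, and it is smaller than `x ^ (J - s + 1)`; this forces
`x ≤ h_(J - s + 1)(k_1, ..., k_s) ≤ C(J, s - 1) k_s ^ (J - s + 1)`, where `h_j` is the complete
homogeneous symmetric polynomial. Finally `x ^ N ∏ k_i ≤ 2 ^ (2 ^ m)`.
-/

namespace Pool.Agent.Results.MP_3ca1ad_nt.PackingBound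

theorem result (m n : ℕ) (hn : 2 ≤ n) (hF : ¬ Nat.Prime (2 ^ 2 ^ m + 1)) (l : List ℕ)
    (hl : ∀ p ∈ l, Nat.Prime p ∧ 2 ^ n ∣ p - 1) (hd : l.prod ∣ 2 ^ 2 ^ m + 1) :
    l.length ≤ 2 ^ m / n ∧
      (n : ℝ) * l.length + ∑ i ∈ Finset.range l.length,
        max 0 (((n : ℝ) - Real.logb 2 ((2 ^ m / n).choose i)) / (((2 ^ m / n : ℕ) : ℝ) - i)) ≤
          2 ^ m :=
  Pool.Agent.PB3ca1.pb m n hn hF l hl hd

end Pool.Agent.Results.MP_3ca1ad_nt.PackingBound
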